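import Pool.Agent.Helper84.TL.Defs
import Pool.Agent.Helper70.TB.Upper

/-!
# Project TL (MP_56afde): the symbols of `T₃` (module TL-M)
-/

set_option autoImplicit false

namespace Pool.Agent.Helper84.TL

open Finset Pool.Agent.Lead.TB

namespace Avd

theorem peel_step {n N : ℕ} (G F : Gr n) :
    (av (Fin (N + 1)) univ G F).card ≤
      ∑ σ ∈ pm (fun r => G r \ F r), (av (Fin N) univ (Up.del G σ) F).card := by
  classical
  rw [← Finset.card_sigma]
  apply Finset.card_le_card_of_injOn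
    (fun σ : Fin (N + 1) → Equiv.Perm (Fin n) =>
      (⟨σ 0, fun i => σ i.succ⟩ : Σ _ : Equiv.Perm (Fin n), (Fin N → Equiv.Perm (Fin n))))
  · intro σ hσ
    have hσ' := hσ
    simp only [av, fac, coe_filter, mem_filter, mem_univ, true_and, Set.mem_ofPred_eq] at hσ'
    obtain ⟨⟨h1, h2⟩, h3⟩ := hσ'
    simp only [coe_sigma, Set.mem_sigma_iff, mem_coe]
    refine ⟨?_, ?_⟩
    · unfold pm
      rw [mem_filter]
      refine ⟨mem_univ _, fun r => ?_⟩
      rw [mem_sdiff]
      exact ⟨h1 0 r, h3 0 trivial r⟩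
    · simp only [av, fac, mem_filter, mem_univ, true_and]
      refine ⟨⟨fun i r => ?_, fun i j hij r => ?_⟩, fun i _ r => ?_⟩
      · unfold Up.del
        rw [mem_erase]
        exact ⟨h2 i.succ 0 (Fin.succ_ne_zero i) r, h1 i.succ r⟩
      · exact h2 i.succ j.succ (fun h => hij (Fin.succ_injective _ h)) r
      · exact h3 i.succ trivial r
  · intro σ _ τ _ h
    simp only [Sigma.mk.injEq, heq_eq_eq] at h
    funext i
    refine Fin.cases h.1 (fun j => ?_) i
    exact congrFun h.2 j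

theorem peel {n : ℕ} (F : Gr n) : ∀ (c D : ℕ) (G : Gr n), Reg D G → c ≤ D →
    (∀ r, F r ⊆ G r) →
    ((av (Fin c) univ G F).card : ℝ) ≤
      ∏ j ∈ Icc (D - c + 1) D, ∏ r, g (j - (F r).card) := by
  intro c
  induction c with
  | zero =>
    intro D G _ _ _
    have h1 : (av (Fin 0) univ G F).card ≤ 1 :=
      Finset.card_le_one.mpr fun σ _ τ _ => Subsingleton.elim _ _
    have h2 : Icc (D - 0 + 1) D = ∅ := by
      ext j
      simp only [mem_Icc, notMem_empty, iff_false]
      omega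
    rw [h2, Finset.prod_empty]
    exact_mod_cast h1
  | succ c ih =>
    intro D G hG hc hF
    obtain ⟨N, rfl⟩ : ∃ N, D = N + 1 := ⟨D - 1, by omega⟩
    have h1 := peel_step (N := c) G F
    have h2 : ∀ σ ∈ pm (fun r => G r \ F r),
        ((av (Fin c) univ (Up.del G σ) F).card : ℝ) ≤
          ∏ j ∈ Icc (N - c + 1) N, ∏ r, g (j - (F r).card) := by
      intro σ hσ
      unfold pm at hσ
      rw [mem_filter] at hσ
      have hσ' := hσ.2
      have hmem : ∀ r, σ r ∈ G r := fun r => (mem_sdiff.mp (hσ' r)).1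
      refine ih N (Up.del G σ) (Up.reg_del G hG σ hmem) (by omega) fun r x hx => ?_
      have h3 := mem_sdiff.mp (hσ' r)
      unfold Up.del
      rw [mem_erase]
      exact ⟨fun h => h3.2 (h ▸ hx), hF r hx⟩
    have h3 : ((pm (fun r => G r \ F r)).card : ℝ) ≤ ∏ r, g (N + 1 - (F r).card) := by
      refine (bregman _).trans (le_of_eq ?_)
      refine Finset.prod_congr rfl fun r _ => ?_
      rw [Finset.card_sdiff_of_subset (hF r), hG.1 r]
    have h4 : N + 1 - (c + 1) + 1 = N - c + 1 := by omega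
    rw [h4, Finset.prod_Icc_succ_top (by omega), mul_comm]
    calc ((av (Fin (c + 1)) univ G F).card : ℝ)
        ≤ ∑ σ ∈ pm (fun r => G r \ F r), ((av (Fin c) univ (Up.del G σ) F).card : ℝ) := by
          exact_mod_cast h1
      _ ≤ ∑ σ ∈ pm (fun r => G r \ F r),
          ∏ j ∈ Icc (N - c + 1) N, ∏ r, g (j - (F r).card) := Finset.sum_le_sum h2
      _ = ((pm (fun r => G r \ F r)).card : ℝ) *
          ∏ j ∈ Icc (N - c + 1) N, ∏ r, g (j - (F r).card) := by
          rw [Finset.sum_const, nsmul_eq_mul]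
      _ ≤ _ := mul_le_mul_of_nonneg_right h3 (Finset.prod_nonneg fun j _ =>
            Finset.prod_nonneg fun r _ => (Breg.g_pos _).le)

/-- If `c` disjoint matchings avoid `F`, then `F` has at most `D - c` cells in each row. -/
theorem card_F_le {n c D : ℕ} (G F : Gr n) (hG : Reg D G) (hF : ∀ r, F r ⊆ G r)
    (σ : Fin c → Equiv.Perm (Fin n)) (hσ : σ ∈ av (Fin c) univ G F) (r : Fin n) :
    (F r).card + c ≤ D := by
  classical
  simp only [av, fac, mem_filter, mem_univ, true_and] at hσ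
  obtain ⟨⟨h1, h2⟩, h3⟩ := hσ
  have hinj : Function.Injective fun i => σ i r := by
    intro i j hij
    by_contra hne
    exact h2 i j hne r hij
  have hd : Disjoint (F r) (univ.image fun i => σ i r) := by
    rw [Finset.disjoint_left]
    intro x hx hx'
    obtain ⟨i, _, rfl⟩ := mem_image.mp hx'
    exact h3 i trivial r hx
  have hs : F r ∪ (univ.image fun i => σ i r) ⊆ G r := by
    apply Finset.union_subset (hF r)
    intro x hx
    obtain ⟨i, _, rfl⟩ := mem_image.mp hx
    exact h1 i r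
  have h4 := Finset.card_le_card hs
  rw [Finset.card_union_of_disjoint hd, Finset.card_image_of_injective _ hinj, Finset.card_univ,
    Fintype.card_fin, hG.1 r] at h4
  exact h4

end Avd

theorem upper_av {n c D : ℕ} (hc : 2 * c ≤ D) (hD : 1 ≤ D) (G F : Gr n) (hG : Reg D G)
    (hF : ∀ r, F r ⊆ G r) :
    ((av (Fin c) univ G F).card : ℝ) ≤
      Real.exp (n * ∑ j ∈ Icc (D - c + 1) D, Real.log (g j) -
        Real.log 2 * c / D * ∑ r, ((F r).card : ℝ)) := by
  classical
  rcases (av (Fin c) univ G F).eq_empty_or_nonempty with he | ⟨σ, hσ⟩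
  · rw [he, Finset.card_empty, Nat.cast_zero]
    exact (Real.exp_pos _).le
  have hf := Avd.card_F_le G F hG hF σ hσ
  have h1 := Avd.peel F c D G hG (by omega) hF
  refine h1.trans ?_
  have hD' : (0 : ℝ) < D := by exact_mod_cast hD
  have hl : 0 < Real.log 2 := Real.log_pos (by norm_num)
  have h2 : ∀ j ∈ Icc (D - c + 1) D, ∏ r, g (j - (F r).card) ≤
      Real.exp (n * Real.log (g j) - Real.log 2 / D * ∑ r, ((F r).card : ℝ)) := by
    intro j hj
    rw [mem_Icc] at hj
    have hj' : (0 : ℝ) < j := by exact_mod_cast (by omega : 0 < j)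
    have h4 : ∀ r ∈ (univ : Finset (Fin n)), g (j - (F r).card) ≤
        Real.exp (Real.log (g j) - Real.log 2 / D * ((F r).card : ℝ)) := by
      intro r _
      have h5 := g_ratio (d := j - (F r).card) (j := j) (by have := hf r; omega) (Nat.sub_le _ _)
      refine h5.trans ?_
      have h8 : Real.exp (Real.log (g j) - Real.log 2 / D * ((F r).card : ℝ)) =
          g j * Real.exp (-(Real.log 2 / D * ((F r).card : ℝ))) := by
        rw [sub_eq_add_neg, Real.exp_add, Real.exp_log (Breg.g_pos _)]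
      rw [h8]
      refine mul_le_mul_of_nonneg_left (Real.exp_le_exp.mpr ?_) (Breg.g_pos _).le
      have h6 : (j : ℝ) - ((j - (F r).card : ℕ) : ℝ) = (F r).card := by
        rw [Nat.cast_sub (by have := hf r; omega)]; ring
      rw [h6, neg_le_neg_iff, div_mul_eq_mul_div]
      apply div_le_div_of_nonneg_left (by positivity) hj'
      exact_mod_cast hj.2
    refine (Finset.prod_le_prod (fun r _ => (Breg.g_pos _).le) h4).trans (le_of_eq ?_)
    rw [← Real.exp_sum, Finset.sum_sub_distrib, Finset.sum_const, Finset.card_univ,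
      Fintype.card_fin, nsmul_eq_mul, ← Finset.mul_sum]
  refine (Finset.prod_le_prod (fun j _ => Finset.prod_nonneg fun r _ => (Breg.g_pos _).le)
    h2).trans (le_of_eq ?_)
  rw [← Real.exp_sum, Finset.sum_sub_distrib, Finset.sum_const, ← Finset.mul_sum, Nat.card_Icc,
    nsmul_eq_mul]
  have h7 : D + 1 - (D - c + 1) = c := by omega
  rw [h7]
  congr 2
  ring

namespace Avd

/-- The Gibbs inequality for the classes of a symmetric relation. -/
theorem gibbs {α : Type} [DecidableEq α] (E : Finset α) (R : α → α → Prop) [DecidableRel R]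
    (hsymm : ∀ a ∈ E, ∀ b ∈ E, R a b → R b a) (hrefl : ∀ a ∈ E, R a a) (φ : α → ℝ)
    (hφ : ∀ a ∈ E, 0 < φ a) (h : ∀ b ∈ E, ∑ a ∈ E.filter (fun a => R b a), φ a ≤ 1) :
    ∑ a ∈ E, (Real.log ((E.filter fun b => R a b).card : ℝ) + Real.log (φ a)) ≤ 0 := by
  have h1 : ∀ a ∈ E, Real.log ((E.filter fun b => R a b).card : ℝ) + Real.log (φ a) ≤
      ((E.filter fun b => R a b).card : ℝ) * φ a - 1 := by
    intro a ha
    have h2 : (0 : ℝ) < ((E.filter fun b => R a b).card : ℝ) := by
      exact_mod_cast Finset.card_pos.mpr ⟨a, mem_filter.mpr ⟨ha, hrefl a ha⟩⟩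
    rw [← Real.log_mul h2.ne' (hφ a ha).ne']
    exact Real.log_le_sub_one_of_pos (mul_pos h2 (hφ a ha))
  refine (Finset.sum_le_sum h1).trans ?_
  rw [Finset.sum_sub_distrib, Finset.sum_const, nsmul_eq_mul, mul_one]
  have h3 : ∑ a ∈ E, ((E.filter fun b => R a b).card : ℝ) * φ a =
      ∑ b ∈ E, ∑ a ∈ E.filter (fun a => R b a), φ a := by
    have h4 : ∀ a ∈ E, ((E.filter fun b => R a b).card : ℝ) * φ a =
        ∑ b ∈ E, (if R a b then φ a else 0) := by
      intro a _
      rw [← Finset.sum_filter, Finset.sum_const, nsmul_eq_mul]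
    rw [Finset.sum_congr rfl h4, Finset.sum_comm]
    refine Finset.sum_congr rfl fun b hb => ?_
    rw [Finset.sum_filter]
    refine Finset.sum_congr rfl fun a ha => ?_
    have h5 : R a b ↔ R b a := ⟨hsymm a ha b hb, hsymm b hb a ha⟩
    by_cases h6 : R b a
    · rw [if_pos h6, if_pos (h5.mpr h6)]
    · rw [if_neg h6, if_neg fun h7 => h6 (h5.mp h7)]
  rw [h3]
  have h6 := Finset.sum_le_sum h
  rw [Finset.sum_const, nsmul_eq_mul, mul_one] at h6
  linarith

/-- Sums of inverse sizes of fibres. -/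
theorem fibre_sum {α β : Type} [DecidableEq α] [DecidableEq β] (C : Finset α) (ρ : α → β)
    (N : α → ℕ) (hN : ∀ a ∈ C, N a = (C.filter fun b => ρ b = ρ a).card) :
    ∑ a ∈ C, (1 : ℝ) / N a = ((C.image ρ).card : ℝ) := by
  rw [← Finset.sum_fiberwise_of_maps_to (g := ρ) (t := C.image ρ)
    (fun a ha => mem_image_of_mem ρ ha)]
  have h1 : ∀ τ ∈ C.image ρ, ∑ a ∈ C.filter (fun a => ρ a = τ), (1 : ℝ) / N a = 1 := by
    intro τ hτ
    obtain ⟨a₀, ha₀, rfl⟩ := mem_image.mp hτ
    have h2 : ∀ a ∈ C.filter (fun a => ρ a = ρ a₀), (1 : ℝ) / N a =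
        1 / ((C.filter fun b => ρ b = ρ a₀).card : ℝ) := by
      intro a ha
      rw [mem_filter] at ha
      rw [hN a ha.1, ha.2]
    rw [Finset.sum_congr rfl h2, Finset.sum_const, nsmul_eq_mul]
    have h3' : 0 < (C.filter fun b => ρ b = ρ a₀).card :=
      Finset.card_pos.mpr ⟨a₀, by rw [mem_filter]; exact ⟨ha₀, rfl⟩⟩
    have h3 : (0 : ℝ) < ((C.filter fun b => ρ b = ρ a₀).card : ℝ) := by exact_mod_cast h3'
    field_simp
  rw [Finset.sum_congr rfl h1, Finset.sum_const, nsmul_eq_mul, mul_one]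

variable {n : ℕ}

theorem mem_ls {L : Fin n → Equiv.Perm (Fin n)} :
    L ∈ ls n ↔ ∀ i j, i ≠ j → ∀ r, L i r ≠ L j r := by
  simp [ls, fac]

theorem inj_of {L : Fin n → Equiv.Perm (Fin n)} (hL : L ∈ ls n) (r : Fin n) :
    Function.Injective fun s => L s r := by
  intro i j hij
  by_contra hne
  exact mem_ls.mp hL i j hne r hij

theorem reg_sg {L : Fin n → Equiv.Perm (Fin n)} (hL : L ∈ ls n) (Y : Finset (Fin n)) :
    Reg Y.card (sg L Y) := by
  refine ⟨fun r => ?_, fun c => ?_⟩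
  · unfold sg
    exact Finset.card_image_of_injective _ (inj_of hL r)
  · have h1 : (univ.filter fun r => c ∈ sg L Y r) = Y.image fun t => (L t).symm c := by
      ext r
      simp only [sg, mem_filter, mem_univ, true_and, mem_image]
      constructor
      · rintro ⟨t, ht, rfl⟩
        exact ⟨t, ht, by simp⟩
      · rintro ⟨t, ht, rfl⟩
        exact ⟨t, ht, by simp⟩
    rw [h1]
    apply Finset.card_image_of_injective
    intro t t' htt
    have h2 : (L t).symm c = (L t').symm c := htt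
    by_contra hne
    have h3 := mem_ls.mp hL t t' hne ((L t).symm c)
    apply h3
    rw [Equiv.apply_symm_apply, h2, Equiv.apply_symm_apply]

theorem mem_cls {L L' : Fin n → Equiv.Perm (Fin n)} {Y : Finset (Fin n)} :
    L' ∈ cls L Y ↔ L' ∈ ls n ∧ ∀ s, s ∉ Y → L' s = L s := by
  simp [cls]

theorem sg_cls {L L' : Fin n → Equiv.Perm (Fin n)} {Y : Finset (Fin n)} (hL : L ∈ ls n)
    (h : L' ∈ cls L Y) : sg L' Y = sg L Y := by
  have key : ∀ (L L' : Fin n → Equiv.Perm (Fin n)), L ∈ ls n → L' ∈ ls n →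
      (∀ s, s ∉ Y → L' s = L s) → ∀ r, sg L' Y r ⊆ sg L Y r := by
    intro L L' hL hL' h r x hx
    simp only [sg, mem_image] at hx ⊢
    obtain ⟨s, hs, rfl⟩ := hx
    obtain ⟨t, ht⟩ := (Finite.injective_iff_surjective.mp (inj_of hL r)) (L' s r)
    refine ⟨t, ?_, ht⟩
    by_contra hY
    have h2 : L' t r = L' s r := by
      rw [h t hY]
      exact ht
    have h3 := inj_of hL' r h2
    rw [h3] at hY
    exact hY hs
  rw [mem_cls] at h
  funext r
  exact Finset.Subset.antisymm (key L L' hL h.1 h.2 r)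
    (key L' L h.1 hL (fun s hs => (h.2 s hs).symm) r)

/-- The cells of the box in the union of the symbols. -/
def boxF (L : Fin n → Equiv.Perm (Fin n)) (T₁ T₂ S : Finset (Fin n)) : Gr n :=
  fun r => if r ∈ T₁ then sg L S r ∩ T₂ else ∅

theorem sum_boxF {L : Fin n → Equiv.Perm (Fin n)} (hL : L ∈ ls n) (T₁ T₂ S : Finset (Fin n)) :
    ∑ r, (boxF L T₁ T₂ S r).card = cnt L T₁ T₂ S := by
  have h1 : ∀ r, (boxF L T₁ T₂ S r).card =
      if r ∈ T₁ then (S.filter fun s => L s r ∈ T₂).card else 0 := by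
    intro r
    unfold boxF
    split_ifs with hr
    · have h2 : sg L S r ∩ T₂ = (S.filter fun s => L s r ∈ T₂).image fun s => L s r := by
        ext x
        simp only [sg, mem_inter, mem_image, mem_filter]
        constructor
        · rintro ⟨⟨s, hs, rfl⟩, hx⟩
          exact ⟨s, ⟨hs, hx⟩, rfl⟩
        · rintro ⟨s, ⟨hs, hx⟩, rfl⟩
          exact ⟨⟨s, hs, rfl⟩, hx⟩
      rw [h2, Finset.card_image_of_injective _ (inj_of hL r)]
    · exact Finset.card_empty
  simp only [h1]
  rw [← Finset.sum_filter]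
  have h3 : univ.filter (fun r => r ∈ T₁) = T₁ := by
    ext r
    simp
  rw [h3]
  unfold cnt
  simp only [Finset.card_filter]
  exact Finset.sum_comm

theorem cnt_union (L : Fin n → Equiv.Perm (Fin n)) {T₁ T₂ T₃ Y : Finset (Fin n)}
    (hd : Disjoint T₃ Y) : cnt L T₁ T₂ (T₃ ∪ Y) = cnt L T₁ T₂ T₃ + cnt L T₁ T₂ Y := by
  unfold cnt
  exact Finset.sum_union hd

theorem mem_emp {L : Fin n → Equiv.Perm (Fin n)} {T₁ T₂ T₃ : Finset (Fin n)} :
    L ∈ emp T₁ T₂ T₃ ↔ L ∈ ls n ∧ cnt L T₁ T₂ T₃ = 0 := by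
  simp [emp]

end Avd

/-- The symbols of `T₃`. -/
theorem gibbs_T {n : ℕ} (T₁ T₂ T₃ Y : Finset (Fin n)) (hd : Disjoint T₃ Y)
    (hc : T₃.card ≤ Y.card) (hY : 1 ≤ Y.card) :
    ∑ L ∈ emp T₁ T₂ T₃, Real.log ((emp T₁ T₂ T₃ ∩ cls L (T₃ ∪ Y)).card) ≤
      ∑ L ∈ emp T₁ T₂ T₃, (n * ∑ j ∈ Icc (Y.card + 1) (T₃.card + Y.card), Real.log (g j) -
        Real.log 2 * T₃.card / (T₃.card + Y.card : ℕ) * cnt L T₁ T₂ Y +
        Real.log (cls L Y).card) := by
  classical
  set E := emp T₁ T₂ T₃ with hE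
  have hEls : ∀ L ∈ E, L ∈ ls n := fun L hL => (Avd.mem_emp.mp hL).1
  set V : (Fin n → Equiv.Perm (Fin n)) → ℝ := fun L =>
    n * ∑ j ∈ Icc (Y.card + 1) (T₃.card + Y.card), Real.log (g j) -
        Real.log 2 * T₃.card / (T₃.card + Y.card : ℕ) * cnt L T₁ T₂ Y with hV
  have hself : ∀ L ∈ E, ∀ Z : Finset (Fin n), L ∈ cls L Z := fun L hL Z =>
    Avd.mem_cls.mpr ⟨hEls L hL, fun _ _ => rfl⟩
  have hpos : ∀ L ∈ E, (0 : ℝ) < ((cls L Y).card : ℝ) := by
    intro L hL
    exact_mod_cast Finset.card_pos.mpr ⟨L, hself L hL Y⟩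
  have h1 := Avd.gibbs E (fun L L' => L' ∈ cls L (T₃ ∪ Y))
    (fun L hL L' hL' h => by
      rw [Avd.mem_cls] at h ⊢
      exact ⟨hEls L hL, fun s hs => (h.2 s hs).symm⟩)
    (fun L hL => hself L hL _)
    (fun L => Real.exp (-(V L)) / ((cls L Y).card : ℝ))
    (fun L hL => div_pos (Real.exp_pos _) (hpos L hL)) ?_
  · have h2 : ∀ L ∈ E, Real.log ((E.filter fun L' => L' ∈ cls L (T₃ ∪ Y)).card : ℝ) +
        Real.log (Real.exp (-(V L)) / ((cls L Y).card : ℝ)) =
        Real.log ((E ∩ cls L (T₃ ∪ Y)).card) - (V L + Real.log (cls L Y).card) := by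
      intro L hL
      rw [Real.log_div (Real.exp_pos _).ne' (hpos L hL).ne', Real.log_exp, Finset.filter_mem_eq_inter]
      ring
    rw [Finset.sum_congr rfl h2, Finset.sum_sub_distrib] at h1
    linarith
  · intro L' hL'
    -- the class
    set C := E.filter (fun L => L ∈ cls L' (T₃ ∪ Y)) with hC
    have hL'ls := hEls L' hL'
    have hC1 : ∀ L ∈ C, L ∈ E ∧ L ∈ cls L' (T₃ ∪ Y) := fun L hL => by
      rw [hC, mem_filter] at hL
      exact hL
    have hsgc : ∀ L ∈ C, sg L (T₃ ∪ Y) = sg L' (T₃ ∪ Y) := fun L hL =>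
      Avd.sg_cls hL'ls (hC1 L hL).2
    have hcnt : ∀ L ∈ E, cnt L T₁ T₂ Y = ∑ r, (Avd.boxF L T₁ T₂ (T₃ ∪ Y) r).card := by
      intro L hL
      rw [Avd.sum_boxF (hEls L hL), Avd.cnt_union L hd, (Avd.mem_emp.mp hL).2, zero_add]
    have hVc : ∀ L ∈ C, V L = V L' := by
      intro L hL
      have h3 : cnt L T₁ T₂ Y = cnt L' T₁ T₂ Y := by
        rw [hcnt L (hC1 L hL).1, hcnt L' hL']
        refine Finset.sum_congr rfl fun r _ => ?_
        unfold Avd.boxF
        rw [hsgc L hL]
      simp only [hV, h3]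
    -- the restriction to the symbols of `T₃`
    let e : Fin T₃.card ≃ T₃ := T₃.equivFin.symm
    let ρ : (Fin n → Equiv.Perm (Fin n)) → (Fin T₃.card → Equiv.Perm (Fin n)) :=
      fun L i => L (e i)
    have hρ : ∀ L M : Fin n → Equiv.Perm (Fin n), ρ L = ρ M ↔ ∀ s ∈ T₃, L s = M s := by
      intro L M
      constructor
      · intro h s hs
        have h3 := congrFun h (e.symm ⟨s, hs⟩)
        simp only [ρ, Equiv.apply_symm_apply] at h3
        exact h3
      · intro h
        funext i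
        exact h _ (e i).2
    have hfib : ∀ L ∈ C, (cls L Y).card = (C.filter fun M => ρ M = ρ L).card := by
      intro L hL
      congr 1
      ext M
      have hL2 := Avd.mem_cls.mp (hC1 L hL).2
      rw [mem_filter, hC, mem_filter, Avd.mem_cls, Avd.mem_cls, hρ]
      constructor
      · rintro ⟨hM, h⟩
        have h3 : ∀ s ∈ T₃, M s = L s := fun s hs => h s (Finset.disjoint_left.mp hd hs)
        refine ⟨⟨?_, hM, fun s hs => ?_⟩, h3⟩
        · rw [hE, Avd.mem_emp]
          refine ⟨hM, ?_⟩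
          have h4 := (Avd.mem_emp.mp (hC1 L hL).1).2
          rw [← h4]
          unfold cnt
          exact Finset.sum_congr rfl fun s hs => by rw [h3 s hs]
        · rw [h s (fun h5 => hs (mem_union_right _ h5)), hL2.2 s hs]
      · rintro ⟨⟨-, hM, h4⟩, h3⟩
        refine ⟨hM, fun s hs => ?_⟩
        by_cases h5 : s ∈ T₃
        · exact h3 s h5
        · have h6 : s ∉ T₃ ∪ Y := by
            rw [mem_union]
            tauto
          rw [h4 s h6, hL2.2 s h6]
    have h3 := Avd.fibre_sum C ρ (fun L => (cls L Y).card) hfib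
    have h4 : ∑ L ∈ C, Real.exp (-(V L)) / ((cls L Y).card : ℝ) =
        Real.exp (-(V L')) * ((C.image ρ).card : ℝ) := by
      rw [← h3, Finset.mul_sum]
      refine Finset.sum_congr rfl fun L hL => ?_
      rw [hVc L hL]
      ring
    rw [h4]
    -- the restrictions avoid the box
    have h5 : C.image ρ ⊆ av (Fin T₃.card) univ (sg L' (T₃ ∪ Y)) (Avd.boxF L' T₁ T₂ (T₃ ∪ Y)) := by
      intro τ hτ
      obtain ⟨L, hL, rfl⟩ := mem_image.mp hτ
      have hLE := (hC1 L hL).1
      simp only [av, fac, mem_filter, mem_univ, true_and]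
      refine ⟨⟨fun i r => ?_, fun i j hij r => ?_⟩, fun i _ r => ?_⟩
      · rw [← hsgc L hL]
        unfold sg
        exact mem_image.mpr ⟨e i, mem_union_left _ (e i).2, rfl⟩
      · refine Avd.mem_ls.mp (hEls L hLE) _ _ (fun h => hij ?_) r
        exact e.injective (Subtype.ext h)
      · unfold Avd.boxF
        split_ifs with hr
        · intro h6
          have h7 : L (e i) r ∈ T₂ := (mem_inter.mp h6).2
          have h8 := (Avd.mem_emp.mp hLE).2
          unfold cnt at h8
          rw [Finset.sum_eq_zero_iff] at h8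
          have h9 := h8 _ (e i).2
          rw [Finset.card_eq_zero] at h9
          have h10 : r ∈ (T₁.filter fun r => L (e i) r ∈ T₂) := mem_filter.mpr ⟨hr, h7⟩
          rw [h9] at h10
          simp at h10
        · simp
    have h6 : ((C.image ρ).card : ℝ) ≤
        ((av (Fin T₃.card) univ (sg L' (T₃ ∪ Y)) (Avd.boxF L' T₁ T₂ (T₃ ∪ Y))).card : ℝ) := by
      exact_mod_cast Finset.card_le_card h5
    have h7 : (T₃ ∪ Y).card = T₃.card + Y.card := Finset.card_union_of_disjoint hd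
    have h8 := upper_av (c := T₃.card) (D := T₃.card + Y.card) (by omega) (by omega)
      (sg L' (T₃ ∪ Y)) (Avd.boxF L' T₁ T₂ (T₃ ∪ Y)) (h7 ▸ Avd.reg_sg hL'ls (T₃ ∪ Y))
      (fun r => by
        unfold Avd.boxF
        split_ifs
        · exact inter_subset_left
        · simp)
    have h9 : T₃.card + Y.card - T₃.card + 1 = Y.card + 1 := by omega
    have h10 : ∑ r, ((Avd.boxF L' T₁ T₂ (T₃ ∪ Y) r).card : ℝ) = (cnt L' T₁ T₂ Y : ℝ) := by
      rw [hcnt L' hL']
      push_cast
      rfl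
    rw [h9, h10] at h8
    have h11 : Real.exp (V L') = Real.exp (n * ∑ j ∈ Icc (Y.card + 1) (T₃.card + Y.card),
        Real.log (g j) - Real.log 2 * T₃.card / (T₃.card + Y.card : ℕ) * cnt L' T₁ T₂ Y) := rfl
    rw [← h11] at h8
    calc Real.exp (-(V L')) * ((C.image ρ).card : ℝ) ≤ Real.exp (-(V L')) * Real.exp (V L') :=
          mul_le_mul_of_nonneg_left (h6.trans h8) (Real.exp_pos _).le
      _ = 1 := by rw [← Real.exp_add, neg_add_cancel, Real.exp_zero]

end Pool.Agent.Helper84.TL
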